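import Pool.Agent.Helper78K9.GO2.Trop
import Pool.Agent.Helper78K9.GO.Main

set_option autoImplicit false

/-!
# Subdivided trees
-/

namespace Pool.Agent.Helper78K9.GO2

open Function
open Pool.Agent.R655.LI
open Pool.Agent.Helper78K9.GO

/-- The edges `e` with the end points `a e` and `b e` form a tree. -/
def IsTr {V E : Type} (a b : E → V) : Prop :=
  (SimpleGraph.fromEdgeSet (Set.range fun e => s(a e, b e))).Connected ∧
    Nat.card V = Nat.card E + 1

section chain
variable {V E : Type} (a b : E → V) (k : E → ℕ) (w : ∀ e, Fin (k e + 1) → V)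

/-- The vertices of the path from `a e` to `b e`, which replaces the edge `e`: the end points are
`nd 0 = a e` and `nd (k e + 1) = b e`, and there are `k e` new inner vertices. -/
def nd (e : E) (n : ℕ) : V ⊕ (Σ e, Fin (k e)) :=
  if n = 0 then Sum.inl (a e)
  else if h : n - 1 < k e then Sum.inr ⟨e, ⟨n - 1, h⟩⟩
  else Sum.inl (b e)

/-- The subdivided tree: the edge `e` is replaced by a path with the `k e + 1` edges
`(e, 0), …, (e, k e)`; the edge `(e, i)` joins `nd i` and `nd (i + 1)`, and it has the label
`w e i`, a vertex of the original tree. -/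
def chain : LGraph (V ⊕ (Σ e, Fin (k e))) (Σ e, Fin (k e + 1)) where
  a x := nd a b k x.1 x.2
  b x := nd a b k x.1 (x.2 + 1)
  lab x := Sum.inl (w x.1 x.2)

lemma nd_zero (e : E) : nd a b k e 0 = Sum.inl (a e) := rfl

lemma nd_last (e : E) : nd a b k e (k e + 1) = Sum.inl (b e) := by
  unfold nd
  rw [if_neg (by omega), dif_neg (by omega)]

lemma nd_inner (e : E) (n : ℕ) (h1 : 0 < n) (h2 : n ≤ k e) :
    nd a b k e n = Sum.inr ⟨e, ⟨n - 1, by omega⟩⟩ := by
  unfold nd
  rw [if_neg (by omega), dif_pos (by omega)]

lemma nd_succ (e : E) (j : Fin (k e)) : nd a b k e (j + 1) = Sum.inr ⟨e, j⟩ :=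
  nd_inner a b k e (j + 1) (by omega) (by omega)

variable {a b k}

lemma chain_tree [Finite V] [Finite E] (hT : IsTr a b) : (chain a b k w).IsTree := by
  classical
  have := Fintype.ofFinite V
  have := Fintype.ofFinite E
  constructor
  · set Γ := SimpleGraph.fromEdgeSet (Set.range fun x => s((chain a b k w).a x, (chain a b k w).b x))
      with hΓ
    have hstep : ∀ (e : E) (n : ℕ), n ≤ k e → Γ.Reachable (nd a b k e n) (nd a b k e (n + 1)) := by
      intro e n hn
      by_cases h : nd a b k e n = nd a b k e (n + 1)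
      · rw [h]
      · refine SimpleGraph.Adj.reachable ?_
        rw [hΓ, SimpleGraph.fromEdgeSet_adj]
        exact ⟨⟨⟨e, ⟨n, by omega⟩⟩, rfl⟩, h⟩
    have hpath : ∀ (e : E) (n : ℕ), n ≤ k e + 1 → Γ.Reachable (Sum.inl (a e)) (nd a b k e n) := by
      intro e n
      induction n with
      | zero => intro _; exact SimpleGraph.Reachable.refl _
      | succ n ih => intro hn; exact (ih (by omega)).trans (hstep e n (by omega))
    have hwalk : ∀ u v, (SimpleGraph.fromEdgeSet (Set.range fun e => s(a e, b e))).Walk u v →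
        Γ.Reachable (Sum.inl u) (Sum.inl v) := by
      intro u v p
      induction p with
      | nil => exact SimpleGraph.Reachable.refl _
      | @cons u v w h _ ih =>
        refine SimpleGraph.Reachable.trans ?_ ih
        rw [SimpleGraph.fromEdgeSet_adj] at h
        obtain ⟨⟨e, he⟩, -⟩ := h
        simp only at he
        have h1 := hpath e (k e + 1) le_rfl
        rw [nd_last] at h1
        rw [Sym2.eq_iff] at he
        rcases he with ⟨h2, h3⟩ | ⟨h2, h3⟩
        · rw [← h2, ← h3]; exact h1
        · rw [← h2, ← h3]; exact h1.symm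
    obtain ⟨v₀⟩ := hT.1.nonempty
    have hall : ∀ x, Γ.Reachable (Sum.inl v₀) x := by
      intro x
      rcases x with v | ⟨e, j⟩
      · obtain ⟨p⟩ := hT.1.preconnected v₀ v
        exact hwalk _ _ p
      · obtain ⟨p⟩ := hT.1.preconnected v₀ (a e)
        refine (hwalk _ _ p).trans ?_
        have h1 := hpath e (j + 1) (by omega)
        rwa [nd_succ] at h1
    have : Nonempty (V ⊕ (Σ e, Fin (k e))) := ⟨Sum.inl v₀⟩
    exact SimpleGraph.Connected.mk fun x y => (hall x).symm.trans (hall y)
  · have h1 := hT.2
    rw [Nat.card_eq_fintype_card, Nat.card_eq_fintype_card] at h1 ⊢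
    rw [Fintype.card_sum, Fintype.card_sigma, Fintype.card_sigma]
    simp only [Fintype.card_fin, Finset.sum_add_distrib, Finset.sum_const, Finset.card_univ,
      smul_eq_mul, mul_one]
    omega

lemma chain_compressed (h0 : ∀ e, w e 0 ≠ a e) (h1 : ∀ e, w e (Fin.last _) ≠ b e) :
    (chain a b k w).Compressed := by
  rintro ⟨e, i⟩
  change Sum.inl (w e i) ≠ nd a b k e i ∧ Sum.inl (w e i) ≠ nd a b k e (i + 1)
  constructor
  · by_cases hi : (i : ℕ) = 0
    · have : i = 0 := Fin.ext hi
      rw [this]
      intro h
      exact h0 e (Sum.inl_injective h)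
    · rw [nd_inner a b k e i (by omega) (by omega)]
      exact Sum.inl_ne_inr
  · by_cases hi : (i : ℕ) = k e
    · have : i = Fin.last _ := Fin.ext hi
      rw [this]
      change Sum.inl (w e (Fin.last _)) ≠ nd a b k e (k e + 1)
      rw [nd_last]
      intro h
      exact h1 e (Sum.inl_injective h)
    · rw [nd_inner a b k e (i + 1) (by omega) (by omega)]
      exact Sum.inl_ne_inr

end chain

/-- the labels along the path, with the end points -/
def al {V E : Type} (a b : E → V) (k : E → ℕ) (w : ∀ e, Fin (k e + 1) → V) (e : E) (n : ℕ) : V :=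
  if n = 0 then a e else if h : n - 1 < k e + 1 then w e ⟨n - 1, h⟩ else b e

section valid
variable {V E : Type} [DecidableEq V] [Fintype E] [DecidableEq E] {a b : E → V} {k : E → ℕ}
  {w : ∀ e, Fin (k e + 1) → V} {v₀ : V} (σ : E ≃ {v : V // v ≠ v₀})

/-- There is a choice of one position in each path such that the composite matrix is
nonsingular. -/
theorem exists_valid (hT : IsTr a b) : ∃ τ : E → ℕ, (∀ e, τ e ≤ k e + 1) ∧
    (mt σ (fun e => al a b k w e (τ e)) (fun e => al a b k w e (τ e + 1))).det ≠ 0 := by
  by_contra hne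
  push Not at hne
  have h0 : (mt σ a b).det ≠ 0 := tree_det (⟨a, b, a⟩ : LGraph V E) σ hT
  apply h0
  have h1 : mt σ a b = fun e => ∑ n : Fin (k e + 2),
      (fun f => (if al a b k w e n = σ f then 1 else 0) -
        (if al a b k w e (n + 1) = σ f then 1 else 0) : E → ℤ) := by
    funext e f
    rw [Finset.sum_apply]
    have h2 := Fin.sum_univ_eq_sum_range (fun n => (if al a b k w e n = σ f then 1 else 0) -
        (if al a b k w e (n + 1) = σ f then (1 : ℤ) else 0)) (k e + 2)
    rw [h2, Finset.sum_range_sub']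
    have h3 : al a b k w e 0 = a e := rfl
    have h4 : al a b k w e (k e + 2) = b e := by
      unfold al
      rw [if_neg (by omega), dif_neg (by omega)]
    rw [h3, h4]
    rfl
  have h2 := (Matrix.detRowAlternating (n := E) (R := ℤ)).toMultilinearMap.map_sum
    (fun e (n : Fin (k e + 2)) => (fun f => (if al a b k w e n = σ f then 1 else 0) -
        (if al a b k w e (n + 1) = σ f then 1 else 0) : E → ℤ))
  have h3 : (mt σ a b).det = ∑ r : ∀ e, Fin (k e + 2),
      (mt σ (fun e => al a b k w e (r e)) (fun e => al a b k w e (r e + 1))).det := by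
    rw [h1]
    exact h2
  rw [h3]
  refine Finset.sum_eq_zero fun r _ => ?_
  exact hne (fun e => r e) (fun e => by have := (r e).2; omega)

end valid

end Pool.Agent.Helper78K9.GO2
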