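import Pool.Agent.Helper78K9.GO2.Pot

set_option autoImplicit false

/-!
# Orientations with unique minima are good
-/

namespace Pool.Agent.Helper78K9.GO2

open Function
open Pool.Agent.R655.LI
open Pool.Agent.Helper78K9.GO

section pot
variable {V E : Type} (a b : E → V) (k : E → ℕ) (w : ∀ e, Fin (k e + 1) → V) (τ : E → ℕ)
  (o : (Σ e, Fin (k e + 1)) → Bool)

/-- the height along the path of `e` -/
def hh (e : E) (n : ℕ) : ℤ := hgt (ex fun i => o ⟨e, i⟩) n

variable {k} in
lemma hh_succ (e : E) (i : Fin (k e + 1)) : hh k o e (i + 1) = hh k o e i + sg (o ⟨e, i⟩) := by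
  unfold hh
  rw [hgt_succ, ex_of]

/-- the first potential -/
def pp : V ⊕ (Σ e, Fin (k e)) → ℤ :=
  Sum.elim (fun _ => 0) (fun x => hh k o x.1 (τ x.1) - hh k o x.1 (x.2 + 1))

/-- the second potential -/
def qq : V ⊕ (Σ e, Fin (k e)) → ℤ :=
  Sum.elim (fun _ => 0) (fun x => if (x.2 : ℕ) + 1 = τ x.1 then 0 else
    if (x.2 : ℕ) + 1 < τ x.1 then (k x.1 : ℤ) + 2 - ((x.2 : ℕ) + 1) else (x.2 : ℕ) + 1)

open Classical in
/-- the kinds of the rows -/
noncomputable def ty (x : Σ e, Fin (k e + 1)) : Ty :=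
  if (x.2 : ℕ) + 1 = τ x.1 ∨ (x.2 : ℕ) = τ x.1 then Ty.M else
    if (x.2 : ℕ) + 1 < τ x.1 then (if o x then Ty.T else Ty.I) else (if o x then Ty.I else Ty.T)

variable {k τ o}

lemma pp_nd (e : E) (n : ℕ) (h1 : 0 < n) (h2 : n ≤ k e) :
    pp k τ o (nd a b k e n) = hh k o e (τ e) - hh k o e n := by
  rw [nd_inner a b k e n h1 h2]
  simp only [pp, Sum.elim_inr]
  have : n - 1 + 1 = n := by omega
  rw [this]

lemma qq_nd (e : E) (n : ℕ) (h1 : 0 < n) (h2 : n ≤ k e) :
    qq k τ (nd a b k e n) = if n = τ e then 0 else if n < τ e then (k e : ℤ) + 2 - n else n := by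
  rw [nd_inner a b k e n h1 h2]
  simp only [qq, Sum.elim_inr]
  have : n - 1 + 1 = n := by omega
  rw [this]
  have h3 : ((n - 1 : ℕ) : ℤ) + 1 = n := by omega
  rw [h3]

lemma pp_inl (v : V) : pp k τ o (Sum.inl v) = 0 := rfl

lemma qq_inl (v : V) : qq k τ (Sum.inl v) = 0 := rfl

variable {a b w}

lemma umin_dir (hU : ∀ e, UMin (fun i => o ⟨e, i⟩) (τ e)) (e : E) :
    ∀ n, n ≤ k e + 1 → n ≠ τ e → hh k o e (τ e) < hh k o e n := by
  intro n hn hne
  exact hU e n hn hne

lemma vec_ty (hτ : ∀ e, τ e ≤ k e + 1) (hU : ∀ e, UMin (fun i => o ⟨e, i⟩) (τ e))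
    (x : Σ e, Fin (k e + 1)) : vec (ty k τ o x) ((chain a b k w).ini o x) ((chain a b k w).lab x)
      ((chain a b k w).ter o x) = rowA a b k w τ x := by
  classical
  obtain ⟨e, i⟩ := x
  have hi := i.2
  have hτe := hτ e
  have hd := umin_dir hU e
  have hs := hh_succ o e i
  have h1 := hd i (by omega)
  have h2 := hd (i + 1) (by omega)
  unfold ty rowA lead
  simp only
  by_cases h3 : (i : ℕ) + 1 = τ e
  · rw [if_pos (Or.inl h3), if_pos (Or.inl h3), if_pos (by omega)]
    have h4 := h1 (by omega)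
    rw [← h3, hs] at h4
    have h5 : o ⟨e, i⟩ = false := by
      cases h6 : o ⟨e, i⟩
      · rfl
      · rw [h6] at h4
        simp only [sg, if_true] at h4
        omega
    simp only [vec, LGraph.ini, h5, chain]
    rfl
  · by_cases h4 : (i : ℕ) = τ e
    · rw [if_pos (Or.inr h4), if_pos (Or.inr h4), if_neg (by omega)]
      have h5 := h2 (by omega)
      rw [← h4, hs] at h5
      have h6 : o ⟨e, i⟩ = true := by
        cases h7 : o ⟨e, i⟩
        · rw [h7] at h5
          simp only [sg] at h5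
          norm_num at h5
        · rfl
      simp only [vec, LGraph.ini, h6, chain]
      rfl
    · have h45 : ¬((i : ℕ) + 1 = τ e ∨ (i : ℕ) = τ e) := by omega
      rw [if_neg h45, if_neg h45, sub_zero]
      by_cases h5 : (i : ℕ) + 1 < τ e
      · rw [if_pos h5, if_pos (show (i : ℕ) + 1 ≤ τ e by omega)]
        cases h6 : o ⟨e, i⟩
        · simp only [vec, LGraph.ini, h6, chain]
          rfl
        · simp only [vec, LGraph.ter, h6, chain]
          rfl
      · rw [if_neg h5, if_neg (show ¬(i : ℕ) + 1 ≤ τ e by omega)]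
        cases h6 : o ⟨e, i⟩
        · simp only [vec, LGraph.ter, h6, chain]
          rfl
        · simp only [vec, LGraph.ini, h6, chain]
          rfl

lemma cond_ty (hτ : ∀ e, τ e ≤ k e + 1) (hU : ∀ e, UMin (fun i => o ⟨e, i⟩) (τ e))
    (x : Σ e, Fin (k e + 1)) : Cond (pp k τ o) (qq k τ) (ty k τ o x) ((chain a b k w).ini o x)
      ((chain a b k w).lab x) ((chain a b k w).ter o x) := by
  classical
  obtain ⟨e, i⟩ := x
  have hi := i.2
  have hτe := hτ e
  have hd := umin_dir hU e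
  have hs := hh_succ o e i
  have h1 := hd i (by omega)
  have h2 := hd (i + 1) (by omega)
  -- the potentials of the two vertices
  have hp1 : (i : ℕ) = 0 ∨ (0 < (i : ℕ) ∧ (i : ℕ) ≤ k e) := by omega
  have hp2 : (i : ℕ) = k e ∨ (i : ℕ) + 1 ≤ k e := by omega
  have P1 : ((i : ℕ) = 0 ∧ pp k τ o (nd a b k e i) = 0 ∧ qq k τ (nd a b k e i) = 0) ∨
      (0 < (i : ℕ) ∧ pp k τ o (nd a b k e i) = hh k o e (τ e) - hh k o e i ∧
        qq k τ (nd a b k e i) = if (i : ℕ) = τ e then 0 else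
          if (i : ℕ) < τ e then (k e : ℤ) + 2 - (i : ℕ) else (i : ℕ)) := by
    rcases hp1 with h | h
    · left
      rw [h]
      exact ⟨rfl, rfl, rfl⟩
    · right
      exact ⟨h.1, pp_nd a b e i h.1 h.2, qq_nd a b e i h.1 h.2⟩
  have P2 : ((i : ℕ) = k e ∧ pp k τ o (nd a b k e (i + 1)) = 0 ∧ qq k τ (nd a b k e (i + 1)) = 0) ∨
      ((i : ℕ) + 1 ≤ k e ∧ pp k τ o (nd a b k e (i + 1)) = hh k o e (τ e) - hh k o e (i + 1) ∧
        qq k τ (nd a b k e (i + 1)) = if (i : ℕ) + 1 = τ e then 0 else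
          if (i : ℕ) + 1 < τ e then (k e : ℤ) + 2 - ((i : ℕ) + 1) else (i : ℕ) + 1) := by
    rcases hp2 with h | h
    · left
      rw [h, nd_last]
      exact ⟨rfl, rfl, rfl⟩
    · right
      refine ⟨h, pp_nd a b e (i + 1) (by omega) h, ?_⟩
      rw [qq_nd a b e (i + 1) (by omega) h]
      push_cast
      rfl
  have hl : pp k τ o (Sum.inl (w e i) : V ⊕ (Σ e, Fin (k e))) = 0 := rfl
  have hl' : qq k τ (Sum.inl (w e i) : V ⊕ (Σ e, Fin (k e))) = 0 := rfl
  unfold ty
  simp only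
  by_cases h3 : (i : ℕ) + 1 = τ e
  · rw [if_pos (Or.inl h3)]
    have h4 := h1 (by omega)
    rw [← h3, hs] at h4
    have h5 : o ⟨e, i⟩ = false := by
      cases h6 : o ⟨e, i⟩
      · rfl
      · rw [h6] at h4
        simp only [sg, if_true] at h4
        omega
    simp only [Cond, LGraph.ini, LGraph.ter, h5, chain, hl, hl', Bool.false_eq_true, if_false]
    rw [h5] at hs
    simp only [sg, Bool.false_eq_true, if_false] at hs
    rw [h3] at P2 hs
    rcases P1 with ⟨h6, h7, h8⟩ | ⟨h6, h7, h8⟩ <;> rcases P2 with ⟨g6, g7, g8⟩ | ⟨g6, g7, g8⟩ <;>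
      rw [h3, h7, h8, g7, g8] <;> (try split_ifs) <;> omega
  · by_cases h4 : (i : ℕ) = τ e
    · rw [if_pos (Or.inr h4)]
      have h5 := h2 (by omega)
      rw [← h4, hs] at h5
      have h6 : o ⟨e, i⟩ = true := by
        cases h7 : o ⟨e, i⟩
        · rw [h7] at h5
          simp only [sg] at h5
          norm_num at h5
        · rfl
      simp only [Cond, LGraph.ini, LGraph.ter, h6, chain, hl, hl', if_true]
      rw [h6] at hs
      simp only [sg, if_true] at hs
      rw [← h4] at P1 P2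
      rcases P1 with ⟨h6, h7, h8⟩ | ⟨h6, h7, h8⟩ <;> rcases P2 with ⟨g6, g7, g8⟩ | ⟨g6, g7, g8⟩ <;>
        rw [h7, h8, g7, g8] <;> (try split_ifs) <;> omega
    · rw [if_neg (by omega)]
      have h1' := h1 h4
      have h2' := h2 h3
      by_cases h5 : (i : ℕ) + 1 < τ e
      · rw [if_pos h5]
        cases h6 : o ⟨e, i⟩
        · rw [h6] at hs
          simp only [sg, Bool.false_eq_true, if_false] at hs
          simp only [Cond, LGraph.ini, LGraph.ter, h6, chain, hl, hl', Bool.false_eq_true, if_false]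
          rcases P1 with ⟨h6, h7, h8⟩ | ⟨h6, h7, h8⟩ <;> rcases P2 with ⟨g6, g7, g8⟩ | ⟨g6, g7, g8⟩ <;>
            rw [h7, h8, g7, g8] <;> (try split_ifs) <;> omega
        · rw [h6] at hs
          simp only [sg, if_true] at hs
          simp only [Cond, LGraph.ini, LGraph.ter, h6, chain, hl, hl', if_true]
          rcases P1 with ⟨h6, h7, h8⟩ | ⟨h6, h7, h8⟩ <;> rcases P2 with ⟨g6, g7, g8⟩ | ⟨g6, g7, g8⟩ <;>
            rw [h7, h8, g7, g8] <;> (try split_ifs) <;> omega
      · rw [if_neg h5]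
        cases h6 : o ⟨e, i⟩
        · rw [h6] at hs
          simp only [sg, Bool.false_eq_true, if_false] at hs
          simp only [Cond, LGraph.ini, LGraph.ter, h6, chain, hl, hl', Bool.false_eq_true, if_false]
          rcases P1 with ⟨h6, h7, h8⟩ | ⟨h6, h7, h8⟩ <;> rcases P2 with ⟨g6, g7, g8⟩ | ⟨g6, g7, g8⟩ <;>
            rw [h7, h8, g7, g8] <;> (try split_ifs) <;> omega
        · rw [h6] at hs
          simp only [sg, if_true] at hs
          simp only [Cond, LGraph.ini, LGraph.ter, h6, chain, hl, hl', if_true]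
          rcases P1 with ⟨h6, h7, h8⟩ | ⟨h6, h7, h8⟩ <;> rcases P2 with ⟨g6, g7, g8⟩ | ⟨g6, g7, g8⟩ <;>
            rw [h7, h8, g7, g8] <;> (try split_ifs) <;> omega

theorem good_of_umin [Finite V] [DecidableEq V] [Fintype E] [DecidableEq E] {v₀ : V}
    (σ : E ≃ {v : V // v ≠ v₀}) (hT : IsTr a b) (h0 : ∀ e, w e 0 ≠ a e)
    (h1 : ∀ e, w e (Fin.last _) ≠ b e) (hτ : ∀ e, τ e ≤ k e + 1)
    (hdet : (mt σ (fun e => al a b k w e (τ e)) (fun e => al a b k w e (τ e + 1))).det ≠ 0)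
    (hU : ∀ e, UMin (fun i => o ⟨e, i⟩) (τ e)) : AllAsph ((chain a b k w).cx o) := by
  classical
  intro K' i
  have htree := chain_tree w hT (k := k)
  refine asph_sub_pot i ((chain a b k w).ini o) (chain a b k w).lab ((chain a b k w).ter o)
    (fun _ => rfl) ?_ (pp k τ o) (qq k τ) (ty k τ o) (cond_ty hτ hU) ?_
  · intro x
    have h2 := LGraph.ne_ends (chain_compressed w h0 h1) o x
    exact ⟨h2.1, h2.2, ne_of_tree (ori (chain a b k w) o) (ori_tree _ htree o) x⟩
  · have h2 := indep_rowA (τ := τ) (a := a) (b := b) (w := w) σ hτ hdet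
    have h3 : (fun x : (Σ e, Fin (k e + 1)) => vec (ty k τ o x) ((chain a b k w).ini o x)
        ((chain a b k w).lab x) ((chain a b k w).ter o x)) = rowA a b k w τ :=
      funext (vec_ty hτ hU)
    rw [← h3] at h2
    exact h2

end pot

end Pool.Agent.Helper78K9.GO2
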