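import Pool.Agent.Helper78K9.GO2.Pot

set_option autoImplicit false

/-!
# The number of walks with a unique minimum at a given time
-/

namespace Pool.Agent.Helper78K9.GO2

open Function

/-- the walks of length `n` which start at `h` and are positive at all later times -/
def PW (h : ℤ) (n : ℕ) : Type := {s : Fin n → Bool // ∀ i, 0 < i → i ≤ n → 0 < h + hgt (ex s) i}

instance (h : ℤ) (n : ℕ) : Finite (PW h n) := by unfold PW; infer_instance

lemma hgt_congr {u v : ℕ → Bool} {n : ℕ} (h : ∀ i < n, u i = v i) : hgt u n = hgt v n :=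
  Finset.sum_congr rfl fun i hi => by rw [h i (Finset.mem_range.1 hi)]

lemma ex_cons_succ {n : ℕ} (c : Bool) (s : Fin n → Bool) (i : ℕ) :
    ex (Fin.cons c s : Fin (n + 1) → Bool) (i + 1) = ex s i := by
  unfold ex
  by_cases h : i < n
  · rw [dif_pos h, dif_pos (by omega)]
    exact Fin.cons_succ (α := fun _ => Bool) c s ⟨i, h⟩
  · rw [dif_neg h, dif_neg (by omega)]

lemma hgt_cons {n : ℕ} (c : Bool) (s : Fin n → Bool) (i : ℕ) :
    hgt (ex (Fin.cons c s : Fin (n + 1) → Bool)) (i + 1) = sg c + hgt (ex s) i := by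
  unfold hgt
  rw [Finset.sum_range_succ']
  have h1 : ex (Fin.cons c s : Fin (n + 1) → Bool) 0 = c := by
    unfold ex
    rw [dif_pos (by omega)]
    rfl
  rw [h1, add_comm]
  congr 1
  exact Finset.sum_congr rfl fun j _ => by rw [ex_cons_succ]

/-- add a first step -/
def PW.cons {h : ℤ} {n : ℕ} (c : Bool) (s : PW (h + sg c) n) (hc : 0 < h + sg c) : PW h (n + 1) :=
  ⟨Fin.cons c s.1, by
    intro i h0 hi
    obtain ⟨j, rfl⟩ : ∃ j, i = j + 1 := ⟨i - 1, by omega⟩
    rw [hgt_cons, ← add_assoc]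
    rcases Nat.eq_zero_or_pos j with rfl | hj
    · simpa [hgt] using hc
    · exact s.2 j hj (by omega)⟩

lemma card_up (h : ℤ) (hh : 0 ≤ h) (n : ℕ) : Nat.card (PW (h + 1) n) ≤ Nat.card (PW h (n + 1)) := by
  refine Nat.card_le_card_of_injective (fun s : PW (h + 1) n => PW.cons (h := h) true s
    (by simp only [sg, if_true]; omega)) ?_
  intro s t hst
  have h1 := congrArg Subtype.val hst
  simp only [PW.cons] at h1
  exact Subtype.ext (Fin.cons_injective2 h1).2

lemma card_two (h : ℤ) (hh : 2 ≤ h) (n : ℕ) :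
    Nat.card (PW (h + 1) n) + Nat.card (PW (h - 1) n) ≤ Nat.card (PW h (n + 1)) := by
  rw [← Nat.card_sum]
  refine Nat.card_le_card_of_injective (Sum.elim
    (fun s : PW (h + 1) n => PW.cons (h := h) true s (by simp only [sg, if_true]; omega))
    (fun s : PW (h - 1) n => PW.cons (h := h) false s (by simp [sg]; omega))) ?_
  rintro (s | s) (t | t) hst
  · have h1 : (Fin.cons true s.1 : Fin (n + 1) → Bool) = Fin.cons true t.1 :=
      congrArg Subtype.val hst
    rw [Subtype.ext (Fin.cons_injective2 h1).2]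
  · have h1 : (Fin.cons true s.1 : Fin (n + 1) → Bool) = Fin.cons false t.1 :=
      congrArg Subtype.val hst
    exact absurd (Fin.cons_injective2 h1).1 (by simp)
  · have h1 : (Fin.cons false s.1 : Fin (n + 1) → Bool) = Fin.cons true t.1 :=
      congrArg Subtype.val hst
    exact absurd (Fin.cons_injective2 h1).1 (by simp)
  · have h1 : (Fin.cons false s.1 : Fin (n + 1) → Bool) = Fin.cons false t.1 :=
      congrArg Subtype.val hst
    rw [Subtype.ext (Fin.cons_injective2 h1).2]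

lemma sum_pascal (f : ℕ → ℕ) (n : ℕ) : ∑ i ∈ Finset.range (n + 2), f i * (n + 1).choose i =
    ∑ i ∈ Finset.range (n + 1), (f i + f (i + 1)) * n.choose i := by
  rw [Finset.sum_range_succ']
  have h1 : ∀ i, f (i + 1) * (n + 1).choose (i + 1) =
      f (i + 1) * n.choose i + f (i + 1) * n.choose (i + 1) := by
    intro i
    rw [Nat.choose_succ_succ, mul_add]
  rw [Finset.sum_congr rfl fun i _ => h1 i, Finset.sum_add_distrib, add_assoc]
  have h2 : ∑ i ∈ Finset.range (n + 1), f (i + 1) * n.choose (i + 1) + f 0 * (n + 1).choose 0 =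
      ∑ i ∈ Finset.range (n + 1), f i * n.choose i := by
    have h3 := Finset.sum_range_succ' (fun i => f i * n.choose i) (n + 1)
    have h4 := Finset.sum_range_succ (fun i => f i * n.choose i) (n + 1)
    rw [Nat.choose_eq_zero_of_lt (Nat.lt_succ_self n), mul_zero, add_zero] at h4
    rw [← h4, h3]
    simp
  rw [h2, ← Finset.sum_add_distrib]
  refine Finset.sum_congr rfl fun i _ => ?_
  ring

/-- the number of free walks of length `n` with the end point in `[-h + 1, h]` -/
def BB (h n : ℕ) : ℕ := ∑ i ∈ Finset.range (n + 1),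
  (if n + 1 ≤ 2 * i + h ∧ 2 * i ≤ n + h then 1 else 0) * n.choose i

lemma BB_succ (h n : ℕ) : BB (h + 1) (n + 1) = BB (h + 2) n + BB h n := by
  unfold BB
  rw [sum_pascal, ← Finset.sum_add_distrib]
  refine Finset.sum_congr rfl fun i _ => ?_
  rw [← add_mul]
  congr 1
  split_ifs <;> omega

lemma BB_zero (n : ℕ) : BB 0 n = 0 := by
  unfold BB
  refine Finset.sum_eq_zero fun i _ => ?_
  rw [if_neg (by omega), zero_mul]

lemma BB_le (n : ℕ) : ∀ h : ℕ, 1 ≤ h → BB h n ≤ Nat.card (PW h n) := by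
  induction n with
  | zero =>
    intro h hh
    have h1 : BB h 0 = 1 := by
      unfold BB
      rw [Finset.sum_range_one, if_pos (by omega)]
      simp
    rw [h1]
    have : Nonempty (PW h 0) := ⟨⟨fun i => i.elim0, by intro i h0 h1; omega⟩⟩
    exact Nat.card_pos
  | succ n ih =>
    intro h hh
    obtain ⟨h', rfl⟩ : ∃ h', h = h' + 1 := ⟨h - 1, by omega⟩
    rw [BB_succ]
    have h1 := ih (h' + 2) (by omega)
    have e1 : (((h' + 2 : ℕ) : ℤ)) = ((h' + 1 : ℕ) : ℤ) + 1 := by push_cast; ring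
    rw [e1] at h1
    rcases Nat.eq_zero_or_pos h' with h0 | h0
    · rw [h0] at h1 ⊢
      rw [BB_zero, add_zero]
      exact h1.trans (card_up _ (by norm_num) n)
    · have h2 := ih h' h0
      have e2 : (h' : ℤ) = ((h' + 1 : ℕ) : ℤ) - 1 := by push_cast; ring
      rw [e2] at h2
      exact (Nat.add_le_add h1 h2).trans (card_two _ (by push_cast; omega) n)

lemma cb_ineq (m : ℕ) : 16 ^ (m + 1) ≤ 4 * (m + 1) * (m + 1).centralBinom ^ 2 := by
  induction m with
  | zero => simp [Nat.centralBinom]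
  | succ m ih =>
    have h1 := Nat.succ_mul_centralBinom_succ (m + 1)
    have h2 : (m + 1 + 1) ^ 2 * (m + 1 + 1).centralBinom ^ 2 =
        4 * (2 * (m + 1) + 1) ^ 2 * (m + 1).centralBinom ^ 2 := by
      calc _ = ((m + 1 + 1) * (m + 1 + 1).centralBinom) ^ 2 := by ring
        _ = (2 * (2 * (m + 1) + 1) * (m + 1).centralBinom) ^ 2 := by rw [h1]
        _ = _ := by ring
    have h3 : (m + 1 + 1) * 16 ^ (m + 1 + 1) ≤
        (m + 1 + 1) * (4 * (m + 1 + 1) * (m + 1 + 1).centralBinom ^ 2) := by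
      calc (m + 1 + 1) * 16 ^ (m + 1 + 1) = 16 * (m + 2) * 16 ^ (m + 1) := by ring
        _ ≤ 16 * (m + 2) * (4 * (m + 1) * (m + 1).centralBinom ^ 2) := Nat.mul_le_mul_left _ ih
        _ = (64 * (m + 1) * (m + 2)) * (m + 1).centralBinom ^ 2 := by ring
        _ ≤ (16 * (2 * (m + 1) + 1) ^ 2) * (m + 1).centralBinom ^ 2 :=
            Nat.mul_le_mul_right _ (by nlinarith)
        _ = 4 * ((m + 1 + 1) ^ 2 * (m + 1 + 1).centralBinom ^ 2) := by rw [h2]; ring
        _ = _ := by ring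
    exact Nat.le_of_mul_le_mul_left h3 (by omega)

lemma choose_ineq (n : ℕ) : 4 ^ n ≤ 2 * (n + 1) * n.choose ((n + 1) / 2) ^ 2 := by
  rcases Nat.even_or_odd' n with ⟨m, rfl | rfl⟩
  · have h1 : (2 * m + 1) / 2 = m := by omega
    rw [h1, ← Nat.centralBinom_eq_two_mul_choose]
    rcases Nat.eq_zero_or_pos m with rfl | hm
    · simp
    · obtain ⟨m', rfl⟩ : ∃ m', m = m' + 1 := ⟨m - 1, by omega⟩
      have h2 := cb_ineq m'
      calc 4 ^ (2 * (m' + 1)) = 16 ^ (m' + 1) := by rw [pow_mul]; norm_num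
        _ ≤ _ := h2
        _ ≤ _ := Nat.mul_le_mul_right _ (by omega)
  · have h1 : (2 * m + 1 + 1) / 2 = m + 1 := by omega
    rw [h1]
    have h2 := cb_ineq m
    have h3 : (m + 1).centralBinom = 2 * (2 * m + 1).choose (m + 1) := by
      rw [Nat.centralBinom_eq_two_mul_choose]
      have h4 : 2 * (m + 1) = (2 * m + 1) + 1 := by ring
      rw [h4, Nat.choose_succ_succ]
      have h5 : (2 * m + 1).choose m = (2 * m + 1).choose (m + 1) :=
        Nat.choose_symm_of_eq_add (by omega)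
      rw [h5]
      ring
    rw [h3] at h2
    have h4 : 4 * 4 ^ (2 * m + 1) ≤ 4 * (2 * (2 * m + 1 + 1) * (2 * m + 1).choose (m + 1) ^ 2) := by
      calc 4 * 4 ^ (2 * m + 1) = 16 ^ (m + 1) := by
            rw [show (16 : ℕ) = 4 ^ 2 by norm_num, ← pow_mul]; ring
        _ ≤ _ := h2
        _ = _ := by ring
    exact Nat.le_of_mul_le_mul_left h4 (by norm_num)

/-- the number of walks which stay positive -/
noncomputable def qn (n : ℕ) : ℕ := Nat.card (PW 0 n)

lemma qn_zero : 1 ≤ qn 0 := by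
  have : Nonempty (PW 0 0) := ⟨⟨fun i => i.elim0, by intro i h0 h1; omega⟩⟩
  exact Nat.card_pos

lemma qn_succ (n : ℕ) : n.choose ((n + 1) / 2) ≤ qn (n + 1) := by
  have h1 : n.choose ((n + 1) / 2) ≤ BB 1 n := by
    unfold BB
    have h2 := Finset.single_le_sum (f := fun i =>
      (if n + 1 ≤ 2 * i + 1 ∧ 2 * i ≤ n + 1 then 1 else 0) * n.choose i)
      (fun i _ => Nat.zero_le _) (Finset.mem_range.2 (show (n + 1) / 2 < n + 1 by omega))
    rw [if_pos (by omega), one_mul] at h2
    exact h2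
  have h2 := BB_le n 1 le_rfl
  have h3 := card_up 0 le_rfl n
  rw [zero_add] at h3
  exact h1.trans (h2.trans h3)

lemma qn_ineq (n : ℕ) (hn : 0 < n) : 4 ^ n ≤ 8 * n * qn n ^ 2 := by
  obtain ⟨m, rfl⟩ : ∃ m, n = m + 1 := ⟨n - 1, by omega⟩
  have h1 := choose_ineq m
  have h2 := qn_succ m
  calc 4 ^ (m + 1) = 4 * 4 ^ m := by ring
    _ ≤ 4 * (2 * (m + 1) * m.choose ((m + 1) / 2) ^ 2) := Nat.mul_le_mul_left _ h1
    _ ≤ 4 * (2 * (m + 1) * qn (m + 1) ^ 2) :=
        Nat.mul_le_mul_left _ (Nat.mul_le_mul_left _ (Nat.pow_le_pow_left h2 2))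
    _ = _ := by ring

/-- The product of the two numbers. -/
theorem qn_mul (l τ : ℕ) (hl : 0 < l) (hτ : τ ≤ l) : 2 ^ l ≤ 4 * l * (qn τ * qn (l - τ)) := by
  have key : (2 ^ l) ^ 2 ≤ (4 * l * (qn τ * qn (l - τ))) ^ 2 := by
    have e0 : (2 ^ l) ^ 2 = 4 ^ l := by rw [← pow_mul, mul_comm, pow_mul]; norm_num
    rw [e0]
    have e1 : (4 * l * (qn τ * qn (l - τ))) ^ 2 = 16 * l ^ 2 * (qn τ ^ 2 * qn (l - τ) ^ 2) := by ring
    rw [e1]
    rcases Nat.eq_zero_or_pos τ with rfl | h1
    · have h2 := qn_ineq l hl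
      have h3 := qn_zero
      rw [Nat.sub_zero]
      calc 4 ^ l ≤ 8 * l * qn l ^ 2 := h2
        _ ≤ 16 * l ^ 2 * qn l ^ 2 := Nat.mul_le_mul_right _ (by nlinarith)
        _ ≤ 16 * l ^ 2 * (qn 0 ^ 2 * qn l ^ 2) :=
            Nat.mul_le_mul_left _ (Nat.le_mul_of_pos_left _ (by positivity))
    · rcases Nat.eq_or_lt_of_le hτ with rfl | h2
      · have h2 := qn_ineq τ hl
        have h3 := qn_zero
        rw [Nat.sub_self]
        calc 4 ^ τ ≤ 8 * τ * qn τ ^ 2 := h2
          _ ≤ 16 * τ ^ 2 * qn τ ^ 2 := Nat.mul_le_mul_right _ (by nlinarith)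
          _ ≤ 16 * τ ^ 2 * (qn τ ^ 2 * qn 0 ^ 2) :=
              Nat.mul_le_mul_left _ (Nat.le_mul_of_pos_right _ (by positivity))
      · have h3 := qn_ineq τ h1
        have h4 := qn_ineq (l - τ) (by omega)
        obtain ⟨m, hm⟩ : ∃ m, l = τ + m := ⟨l - τ, by omega⟩
        have h5 : l - τ = m := by omega
        rw [h5] at h4 ⊢
        rw [hm, pow_add]
        calc 4 ^ τ * 4 ^ m ≤ (8 * τ * qn τ ^ 2) * (8 * m * qn m ^ 2) := Nat.mul_le_mul h3 h4
          _ = (64 * (τ * m)) * (qn τ ^ 2 * qn m ^ 2) := by ring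
          _ ≤ (16 * (τ + m) ^ 2) * (qn τ ^ 2 * qn m ^ 2) :=
              Nat.mul_le_mul_right _ (by
                have : 4 * (τ * m) ≤ (τ + m) ^ 2 := by
                  zify
                  nlinarith [sq_nonneg ((τ : ℤ) - m)]
                omega)
  exact (Nat.pow_le_pow_iff_left (by norm_num)).1 key

/-- the walk with a unique minimum at the time `τ` -/
def glue {τ m : ℕ} (u : Fin τ → Bool) (v : Fin m → Bool) (i : ℕ) : Bool :=
  if i < τ then !(ex u (τ - 1 - i)) else ex v (i - τ)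

lemma sg_not (c : Bool) : sg (!c) = -sg c := by cases c <;> rfl

lemma glue_right {τ m : ℕ} (u : Fin τ → Bool) (v : Fin m → Bool) (n : ℕ) :
    hgt (glue u v) (τ + n) = hgt (glue u v) τ + hgt (ex v) n := by
  unfold hgt
  rw [Finset.sum_range_add]
  congr 1
  refine Finset.sum_congr rfl fun i _ => ?_
  unfold glue
  rw [if_neg (by omega)]
  congr 2
  omega

lemma glue_left {τ m : ℕ} (u : Fin τ → Bool) (v : Fin m → Bool) (n r : ℕ) (h : n + r = τ) :
    hgt (glue u v) n = hgt (glue u v) τ + hgt (ex u) r := by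
  have h1 : hgt (glue u v) τ = hgt (glue u v) n - hgt (ex u) r := by
    have h0 : hgt (glue u v) τ = hgt (glue u v) (n + r) := by rw [h]
    rw [h0]
    unfold hgt
    rw [Finset.sum_range_add, sub_eq_add_neg]
    congr 1
    rw [← Finset.sum_range_reflect (fun i => sg (ex u i)), ← Finset.sum_neg_distrib]
    refine Finset.sum_congr rfl fun i hi => ?_
    have hi' := Finset.mem_range.1 hi
    unfold glue
    rw [if_pos (by omega), sg_not]
    congr 3
    omega
  rw [h1]
  ring

theorem card_umin (l τ : ℕ) (hτ : τ ≤ l) :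
    qn τ * qn (l - τ) ≤ Nat.card {s : Fin l → Bool // UMin s τ} := by
  unfold qn
  rw [← Nat.card_prod]
  have hex : ∀ (x : PW 0 τ × PW 0 (l - τ)) (i : ℕ), i < l →
      ex (fun i : Fin l => glue x.1.1 x.2.1 i) i = glue x.1.1 x.2.1 i := by
    intro x i hi
    unfold ex
    rw [dif_pos hi]
  refine Nat.card_le_card_of_injective (fun x => ⟨fun i => glue x.1.1 x.2.1 i, ?_⟩) ?_
  · intro i hi hne
    have h1 : ∀ n, n ≤ l → hgt (ex fun i : Fin l => glue x.1.1 x.2.1 i) n =
        hgt (glue x.1.1 x.2.1) n := fun n hn => hgt_congr fun i hi => hex x i (by omega)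
    rw [h1 _ hτ, h1 _ hi]
    rcases Nat.lt_or_gt_of_ne hne with h2 | h2
    · rw [glue_left x.1.1 x.2.1 i (τ - i) (by omega)]
      have := x.1.2 (τ - i) (by omega) (by omega)
      omega
    · obtain ⟨r, rfl⟩ : ∃ r, i = τ + r := ⟨i - τ, by omega⟩
      rw [glue_right]
      have := x.2.2 r (by omega) (by omega)
      omega
  · rintro ⟨x, y⟩ ⟨x', y'⟩ h
    have h1 : ∀ i, i < l → glue x.1 y.1 i = glue x'.1 y'.1 i := by
      intro i hi
      exact congrFun (congrArg Subtype.val h) ⟨i, hi⟩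
    refine Prod.ext (Subtype.ext (funext fun j => ?_)) (Subtype.ext (funext fun j => ?_))
    · have hj := j.2
      have h2 := h1 (τ - 1 - j) (by omega)
      unfold glue at h2
      rw [if_pos (by omega), if_pos (by omega)] at h2
      have h3 : τ - 1 - (τ - 1 - (j : ℕ)) = j := by omega
      rw [h3, ex_of, ex_of] at h2
      simpa using h2
    · have hj := j.2
      have h2 := h1 (τ + j) (by omega)
      unfold glue at h2
      rw [if_neg (by omega), if_neg (by omega)] at h2
      have h3 : τ + (j : ℕ) - τ = j := by omega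
      rw [h3, ex_of, ex_of] at h2
      exact h2

end Pool.Agent.Helper78K9.GO2
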