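import Pool.Agent.Helper78K9.GO2.Good
import Pool.Agent.Helper78K9.GO2.Walks

set_option autoImplicit false

/-!
# The orientations of a subdivided tree
-/

namespace Pool.Agent.Helper78K9.GO2

open Function
open Pool.Agent.R655.LI
open Pool.Agent.Helper78K9.GO

section main
variable {V E : Type} [Finite V] [Fintype E] {a b : E → V} {k : E → ℕ}
  {w : ∀ e, Fin (k e + 1) → V}

theorem plus_all (hT : IsTr a b) (o : (Σ e, Fin (k e + 1)) → Bool)
    (v₀ : V ⊕ (Σ e, Fin (k e))) :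
    ((chain a b k w).plus o v₀).Contractible ∧ ((chain a b k w).plus o v₀).IsFin ∧
      Nonempty (Sub ((chain a b k w).cx o) ((chain a b k w).plus o v₀)) := by
  have h := chain_tree w hT (k := k)
  refine ⟨⟨plus_pi _ h o v₀, plus_bdry _ h o v₀⟩,
    ⟨(inferInstance : Finite (V ⊕ (Σ e, Fin (k e)))), ?_⟩, ⟨(chain a b k w).incl o v₀⟩⟩
  exact (inferInstance : Finite (Option (Σ e, Fin (k e + 1))))

theorem criterion (hT : IsTr a b) (h0 : ∀ e, w e 0 ≠ a e) (h1 : ∀ e, w e (Fin.last _) ≠ b e)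
    (τ : E → ℕ) (hτ : ∀ e, τ e ≤ k e + 1)
    (hC : IsTr (fun e => al a b k w e (τ e)) (fun e => al a b k w e (τ e + 1)))
    (o : (Σ e, Fin (k e + 1)) → Bool) (hU : ∀ e, UMin (fun i => o ⟨e, i⟩) (τ e)) :
    AllAsph ((chain a b k w).cx o) := by
  classical
  obtain ⟨v₀⟩ := hT.1.nonempty
  obtain ⟨σ⟩ := exists_equiv (⟨a, b, a⟩ : LGraph V E) hT v₀
  refine good_of_umin σ hT h0 h1 hτ ?_ hU
  exact tree_det (⟨_, _, a⟩ : LGraph V E) σ hC

theorem count (hT : IsTr a b) (h0 : ∀ e, w e 0 ≠ a e) (h1 : ∀ e, w e (Fin.last _) ≠ b e) :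
    2 ^ (∑ e, (k e + 1)) ≤ (∏ e, (4 * (k e + 1))) *
      Nat.card {o : (Σ e, Fin (k e + 1)) → Bool // AllAsph ((chain a b k w).cx o)} := by
  classical
  obtain ⟨v₀⟩ := hT.1.nonempty
  obtain ⟨σ⟩ := exists_equiv (⟨a, b, a⟩ : LGraph V E) hT v₀
  obtain ⟨τ, hτ, hdet⟩ := exists_valid (k := k) (w := w) σ hT
  have h2 : Nat.card (∀ e, {s : Fin (k e + 1) → Bool // UMin s (τ e)}) ≤
      Nat.card {o : (Σ e, Fin (k e + 1)) → Bool // AllAsph ((chain a b k w).cx o)} := by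
    refine Nat.card_le_card_of_injective
      (fun f => ⟨fun x => (f x.1).1 x.2, good_of_umin σ hT h0 h1 hτ hdet fun e => (f e).2⟩) ?_
    intro f g h
    funext e
    apply Subtype.ext
    funext i
    exact congrFun (congrArg Subtype.val h) ⟨e, i⟩
  rw [Nat.card_pi] at h2
  calc 2 ^ (∑ e, (k e + 1)) = ∏ e, 2 ^ (k e + 1) := (Finset.prod_pow_eq_pow_sum _ _ _).symm
    _ ≤ ∏ e, (4 * (k e + 1) * Nat.card {s : Fin (k e + 1) → Bool // UMin s (τ e)}) := by
        refine Finset.prod_le_prod' fun e _ => ?_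
        exact (qn_mul (k e + 1) (τ e) (by omega) (hτ e)).trans
          (Nat.mul_le_mul_left _ (card_umin (k e + 1) (τ e) (hτ e)))
    _ = (∏ e, (4 * (k e + 1))) * ∏ e, Nat.card {s : Fin (k e + 1) → Bool // UMin s (τ e)} :=
        Finset.prod_mul_distrib
    _ ≤ _ := Nat.mul_le_mul_left _ h2

end main

end Pool.Agent.Helper78K9.GO2
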