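import Pool.Agent.Helper78K9.GO2.Chain

set_option autoImplicit false

/-!
# Potentials on a subdivided tree
-/

namespace Pool.Agent.Helper78K9.GO2

open Function
open Pool.Agent.R655.LI
open Pool.Agent.Helper78K9.GO

/-- the sign of a Boolean -/
def sg (c : Bool) : ℤ := if c then 1 else -1

/-- the height of a walk after `n` steps -/
def hgt (u : ℕ → Bool) (n : ℕ) : ℤ := ∑ i ∈ Finset.range n, sg (u i)

lemma hgt_succ (u : ℕ → Bool) (n : ℕ) : hgt u (n + 1) = hgt u n + sg (u n) :=
  Finset.sum_range_succ _ _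

/-- extension of a finite sequence -/
def ex {n : ℕ} (s : Fin n → Bool) (i : ℕ) : Bool := if h : i < n then s ⟨i, h⟩ else false

lemma ex_of {n : ℕ} (s : Fin n → Bool) (i : Fin n) : ex s i = s i := by
  unfold ex
  rw [dif_pos i.2]

/-- the walk with the steps `s` has its minimum exactly at the time `τ` -/
def UMin {n : ℕ} (s : Fin n → Bool) (τ : ℕ) : Prop :=
  ∀ i ≤ n, i ≠ τ → hgt (ex s) τ < hgt (ex s) i

section rows
variable {V E : Type} (a b : E → V) (k : E → ℕ) (w : ∀ e, Fin (k e + 1) → V) (τ : E → ℕ)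

/-- the leading vertex of the row `x` -/
def lead (x : Σ e, Fin (k e + 1)) : V ⊕ (Σ e, Fin (k e)) :=
  if (x.2 : ℕ) + 1 ≤ τ x.1 then nd a b k x.1 (x.2 + 1) else nd a b k x.1 x.2

open Classical in
/-- the leading part of the row `x` -/
noncomputable def rowA (x : Σ e, Fin (k e + 1)) : V ⊕ (Σ e, Fin (k e)) →₀ ℤ :=
  Finsupp.single (lead a b k τ x) 1 -
    if (x.2 : ℕ) + 1 = τ x.1 ∨ (x.2 : ℕ) = τ x.1 then Finsupp.single (Sum.inl (w x.1 x.2)) 1 else 0

variable {a b k w τ}

lemma lead_inr {x : Σ e, Fin (k e + 1)} {e : E} {j : Fin (k e)}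
    (h : lead a b k τ x = Sum.inr ⟨e, j⟩) : x.1 = e ∧
      (((x.2 : ℕ) + 1 ≤ τ x.1 ∧ (x.2 : ℕ) = j) ∨ (τ x.1 < (x.2 : ℕ) + 1 ∧ (x.2 : ℕ) = j + 1)) := by
  obtain ⟨e', i⟩ := x
  unfold lead nd at h
  simp only at h ⊢
  split_ifs at h with h1 h2 h3 h4 h5
  · rw [Sum.inr.injEq, Sigma.mk.injEq] at h
    obtain ⟨rfl, h6⟩ := h
    have h7 := congrArg Fin.val (eq_of_heq h6)
    simp only at h7
    exact ⟨rfl, Or.inl ⟨h1, by omega⟩⟩
  · rw [Sum.inr.injEq, Sigma.mk.injEq] at h
    obtain ⟨rfl, h6⟩ := h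
    have h7 := congrArg Fin.val (eq_of_heq h6)
    simp only at h7
    exact ⟨rfl, Or.inr ⟨by omega, by omega⟩⟩

theorem indep_rowA [DecidableEq V] [Fintype E] [DecidableEq E] {v₀ : V}
    (σ : E ≃ {v : V // v ≠ v₀}) (hτ : ∀ e, τ e ≤ k e + 1)
    (hdet : (mt σ (fun e => al a b k w e (τ e)) (fun e => al a b k w e (τ e + 1))).det ≠ 0) :
    LinearIndependent ℤ (rowA a b k w τ) := by
  classical
  rw [Fintype.linearIndependent_iff]
  intro g hg
  -- the composite rows
  let ρ₀ : V ⊕ (Σ e, Fin (k e)) → V →₀ ℤ := Sum.elim (fun v => Finsupp.single v 1)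
    (fun x => if (x.2 : ℕ) + 1 = τ x.1 then Finsupp.single (al a b k w x.1 (τ x.1 + 1)) 1 else 0)
  let ρ : (V ⊕ (Σ e, Fin (k e)) →₀ ℤ) →ₗ[ℤ] (V →₀ ℤ) := Finsupp.linearCombination ℤ ρ₀
  have hρ : ∀ y, ρ (Finsupp.single y 1) = ρ₀ y := by
    intro y
    simp only [ρ, Finsupp.linearCombination_single, one_smul]
  let cc : ∀ e, Fin (k e + 1) := fun e => ⟨τ e - 1, by have := hτ e; omega⟩
  let ε : E → ℤ := fun e => if τ e = 0 then 1 else -1
  have hε : ∀ e, ε e ≠ 0 := by
    intro e
    simp only [ε]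
    split_ifs <;> norm_num
  let comp : E → V →₀ ℤ := fun e => Finsupp.single (al a b k w e (τ e)) 1 -
    Finsupp.single (al a b k w e (τ e + 1)) 1
  have hal : ∀ (e : E) (i : Fin (k e + 1)), al a b k w e (i + 1) = w e i := by
    intro e i
    unfold al
    rw [if_neg (by omega), dif_pos (by omega)]
    rfl
  have hlast : ∀ e : E, al a b k w e (k e + 2) = b e := by
    intro e
    unfold al
    rw [if_neg (by omega), dif_neg (by omega)]
  have hρA : ∀ (e : E) (i : Fin (k e + 1)), ρ (rowA a b k w τ ⟨e, i⟩) =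
      if i = cc e then ε e • comp e else 0 := by
    intro e i
    have hi := i.2
    have hτe := hτ e
    by_cases h1 : (i : ℕ) + 1 = τ e
    · have h2 : i = cc e := Fin.ext (by simp only [cc]; omega)
      rw [if_pos h2]
      simp only [rowA, lead]
      rw [if_pos (by omega), if_pos (Or.inl h1), map_sub, hρ, hρ]
      have h3 : ρ₀ (Sum.inl (w e i)) = Finsupp.single (al a b k w e (τ e)) 1 := by
        rw [← h1, hal]
        rfl
      have h4 : ρ₀ (nd a b k e (i + 1)) = Finsupp.single (al a b k w e (τ e + 1)) 1 := by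
        by_cases h5 : (i : ℕ) = k e
        · rw [h5, nd_last, ← h1, h5, hlast]
          rfl
        · rw [nd_inner a b k e (i + 1) (by omega) (by omega)]
          simp only [ρ₀, Sum.elim_inr]
          rw [if_pos (by omega)]
      rw [h3, h4]
      have h5 : ε e = -1 := by simp only [ε]; rw [if_neg (by omega)]
      rw [h5, neg_smul, one_smul]
      simp only [comp]
      abel
    · by_cases h2 : (i : ℕ) = τ e
      · by_cases h3 : (i : ℕ) = 0
        · have h4 : i = cc e := Fin.ext (by simp only [cc]; omega)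
          rw [if_pos h4]
          simp only [rowA, lead]
          rw [if_neg (by omega), if_pos (Or.inr h2), map_sub, hρ, hρ]
          have h5 : ε e = 1 := by simp only [ε]; rw [if_pos (by omega)]
          have h6 : τ e = 0 := by omega
          rw [h5, one_smul, h3]
          simp only [comp]
          have h7 : al a b k w e (τ e + 1) = w e i := by rw [← h2]; exact hal e i
          rw [h7, h6]
          rfl
        · rw [if_neg (by intro h4; have := congrArg Fin.val h4; simp only [cc] at this; omega)]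
          simp only [rowA, lead]
          rw [if_neg (by omega), if_pos (Or.inr h2), map_sub, hρ, hρ,
            nd_inner a b k e i (by omega) (by omega)]
          simp only [ρ₀, Sum.elim_inr, Sum.elim_inl]
          rw [if_pos (by omega), ← h2, hal, sub_self]
      · rw [if_neg (by intro h4; have := congrArg Fin.val h4; simp only [cc] at this; omega)]
        simp only [rowA, lead]
        rw [if_neg (show ¬((i : ℕ) + 1 = τ e ∨ (i : ℕ) = τ e) by omega), sub_zero, hρ]
        by_cases h3 : (i : ℕ) + 1 ≤ τ e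
        · rw [if_pos h3, nd_inner a b k e (i + 1) (by omega) (by omega)]
          simp only [ρ₀, Sum.elim_inr]
          rw [if_neg (by omega)]
        · rw [if_neg h3, nd_inner a b k e i (by omega) (by omega)]
          simp only [ρ₀, Sum.elim_inr]
          rw [if_neg (by omega)]
  have h1 : ∑ e, (g ⟨e, cc e⟩ * ε e) • comp e = 0 := by
    have h2 := congrArg ρ hg
    rw [map_sum, map_zero, Fintype.sum_sigma] at h2
    rw [← h2]
    refine Finset.sum_congr rfl fun e _ => ?_
    rw [Finset.sum_eq_single (cc e)]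
    · rw [map_smul, hρA, if_pos rfl, mul_smul]
    · intro i _ hi
      rw [map_smul, hρA, if_neg hi, smul_zero]
    · intro h; exact absurd (Finset.mem_univ _) h
  have h2 : ∀ e, g ⟨e, cc e⟩ = 0 := by
    have h3 := mt_indep σ _ _ hdet
    rw [Fintype.linearIndependent_iff] at h3
    intro e
    exact (mul_eq_zero.1 (h3 (fun e => g ⟨e, cc e⟩ * ε e) h1 e)).resolve_right (hε e)
  -- the inner vertices
  have hA : ∀ x y, (rowA a b k w τ x) (Sum.inr y) = if lead a b k τ x = Sum.inr y then 1 else 0 := by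
    intro x y
    unfold rowA
    rw [Finsupp.sub_apply, Finsupp.single_apply]
    have h3 : ((if (x.2 : ℕ) + 1 = τ x.1 ∨ (x.2 : ℕ) = τ x.1 then
        Finsupp.single (Sum.inl (w x.1 x.2)) 1 else 0 : V ⊕ (Σ e, Fin (k e)) →₀ ℤ) (Sum.inr y)) = 0 := by
      split_ifs
      · rw [Finsupp.single_apply, if_neg Sum.inl_ne_inr]
      · rfl
    rw [h3, sub_zero]
  rintro ⟨e, i⟩
  by_cases hi : i = cc e
  · rw [hi]; exact h2 e
  have hi' : (i : ℕ) ≠ τ e - 1 := fun h => hi (Fin.ext h)
  have hib := i.2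
  have hτe := hτ e
  have hj : (if (i : ℕ) + 1 < τ e then (i : ℕ) else (i : ℕ) - 1) < k e := by
    split_ifs <;> omega
  set j : Fin (k e) := ⟨_, hj⟩ with hjdef
  have h3 := DFunLike.congr_fun hg (Sum.inr ⟨e, j⟩)
  rw [Finsupp.finsetSum_apply, Finset.sum_eq_single (⟨e, i⟩ : Σ e, Fin (k e + 1))] at h3
  · rw [Finsupp.smul_apply, hA, if_pos, smul_eq_mul, mul_one] at h3
    · exact h3
    · unfold lead
      simp only
      by_cases h4 : (i : ℕ) + 1 ≤ τ e
      · rw [if_pos h4, nd_inner a b k e (i + 1) (by omega) (by omega)]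
        congr 2
        apply Fin.ext
        simp only [hjdef]
        rw [if_pos (by omega)]
        omega
      · rw [if_neg h4, nd_inner a b k e i (by omega) (by omega)]
        congr 2
        apply Fin.ext
        simp only [hjdef]
        rw [if_neg (by omega)]
  · rintro ⟨e', i'⟩ _ hne
    rw [Finsupp.smul_apply, hA, smul_eq_mul]
    by_cases h4 : lead a b k τ ⟨e', i'⟩ = Sum.inr ⟨e, j⟩
    · obtain ⟨h5, h6⟩ := lead_inr h4
      simp only at h5 h6
      subst h5
      have h7 : i' = cc e' := by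
        apply Fin.ext
        have h8 : (i' : ℕ) ≠ i := fun h => hne (by rw [Fin.ext h])
        simp only [hjdef] at h6
        simp only [cc]
        split_ifs at h6 <;> omega
      rw [h7, h2, zero_mul]
    · rw [if_neg h4, mul_zero]
  · intro h; exact absurd (Finset.mem_univ _) h

end rows

end Pool.Agent.Helper78K9.GO2
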