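import Pool.Agent.Helper78K9.GO.Subc

set_option autoImplicit false

/-!
# Asphericity of Wirtinger complexes by potentials

`inj_trop`: a matrix over the group ring of a group with a height function has independent rows, if
the columns can be given (lexicographic) weights such that the lowest terms of the rows form an
integral matrix with independent rows.
-/

namespace Pool.Agent.Helper78K9.GO2

open Function
open Pool.Agent.R655.LI
open Pool.Agent.Helper78K9.GO

section trop
variable {G : Type} [Group G] (h : G →* Multiplicative ℤ)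

theorem inj_trop {R V : Type} (F : R → V → MonoidAlgebra ℤ G) (A : R → V →₀ ℤ)
    (p q : V → ℤ) (m n : R → ℤ)
    (hA0 : ∀ j v, A j v ≠ 0 → p v = m j ∧ q v = n j)
    (hF : ∀ j v g, (F j v - MonoidAlgebra.single 1 (A j v)).coeff g ≠ 0 →
      m j < (h g).toAdd + p v ∨ (m j = (h g).toAdd + p v ∧ n j < q v))
    (hA : LinearIndependent ℤ A) :
    Injective (Finsupp.linearCombination (MonoidAlgebra ℤ G) F) := by
  classical
  rw [injective_iff_map_eq_zero]
  intro c hc
  by_contra hne
  -- the support of all coefficients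
  have hS : (c.support.biUnion fun j => (c j).coeff.support.image fun g => (j, g)).Nonempty := by
    obtain ⟨j, hj⟩ := Finsupp.ne_iff.1 hne
    have hj' : (c j).coeff ≠ 0 := by
      intro h0
      exact hj (MonoidAlgebra.coeff_eq_zero.1 h0)
    obtain ⟨g, hg⟩ := Finsupp.ne_iff.1 hj'
    exact ⟨(j, g), Finset.mem_biUnion.2 ⟨j, Finsupp.mem_support_iff.2 hj,
      Finset.mem_image.2 ⟨g, Finsupp.mem_support_iff.2 hg, rfl⟩⟩⟩
  obtain ⟨⟨j₀, g₀⟩, hg, hmin⟩ := Finset.exists_min_image _
    (fun x : R × G => (toLex ((h x.2).toAdd + m x.1, n x.1) : ℤ ×ₗ ℤ)) hS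
  have hg₀ : (c j₀).coeff g₀ ≠ 0 := by
    obtain ⟨j, hj, hjg⟩ := Finset.mem_biUnion.1 hg
    obtain ⟨g, hg', he⟩ := Finset.mem_image.1 hjg
    rw [Prod.mk.injEq] at he
    rw [← he.1, ← he.2]
    exact Finsupp.mem_support_iff.1 hg'
  have hmin' : ∀ j g', (c j).coeff g' ≠ 0 →
      ((h g₀).toAdd + m j₀ < (h g').toAdd + m j ∨
        ((h g₀).toAdd + m j₀ = (h g').toAdd + m j ∧ n j₀ ≤ n j)) := by
    intro j g' hg'
    have h1 := hmin (j, g') (Finset.mem_biUnion.2 ⟨j, ?_, Finset.mem_image.2
      ⟨g', Finsupp.mem_support_iff.2 hg', rfl⟩⟩)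
    · rw [Prod.Lex.toLex_le_toLex] at h1
      exact h1
    · rw [Finsupp.mem_support_iff]
      intro h0
      rw [h0] at hg'
      exact hg' rfl
  clear hg hmin hS
  -- the lowest coefficients
  let d : R →₀ ℤ := Finsupp.onFinset c.support
    (fun j => if m j = m j₀ ∧ n j = n j₀ then (c j).coeff g₀ else 0) (by
      intro j hj
      rw [Finsupp.mem_support_iff]
      intro h0
      rw [h0] at hj
      simp at hj)
  have hdj : ∀ j, d j = if m j = m j₀ ∧ n j = n j₀ then (c j).coeff g₀ else 0 := fun j => rfl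
  have hd : Finsupp.linearCombination ℤ A d = 0 := by
    ext v
    have h2 : Finsupp.linearCombination ℤ A d = ∑ j ∈ c.support, d j • A j := by
      rw [Finsupp.linearCombination_apply]
      exact Finsupp.sum_of_support_subset _ (Finsupp.support_onFinset_subset) _
        (fun j _ => zero_smul ℤ (A j))
    rw [h2, Finsupp.finsetSum_apply, Finsupp.coe_zero, Pi.zero_apply]
    by_cases hv : (m j₀ < p v ∨ (m j₀ = p v ∧ n j₀ < q v))
    · refine Finset.sum_eq_zero fun j _ => ?_
      rw [Finsupp.smul_apply, smul_eq_mul]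
      by_cases h3 : A j v = 0
      · rw [h3, mul_zero]
      · have h4 := hA0 j v h3
        rw [hdj, if_neg (by omega), zero_mul]
    · have h1 := congrArg (fun x : MonoidAlgebra ℤ G => x.coeff g₀) (congrFun hc v)
      simp only [Pi.zero_apply, MonoidAlgebra.coeff_zero, Finsupp.coe_zero] at h1
      rw [Finsupp.linearCombination_apply, Finsupp.sum, Finset.sum_apply, MonoidAlgebra.coeff_sum,
        Finsupp.finsetSum_apply] at h1
      rw [← h1]
      refine Finset.sum_congr rfl fun j _ => ?_
      rw [Pi.smul_apply, smul_eq_mul, Finsupp.smul_apply, smul_eq_mul]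
      have h5 : F j v = MonoidAlgebra.single 1 (A j v) + (F j v - MonoidAlgebra.single 1 (A j v)) := by
        abel
      rw [h5, mul_add, MonoidAlgebra.coeff_add, Finsupp.add_apply, MonoidAlgebra.coeff_mul_single_one]
      have h6 : (c j * (F j v - MonoidAlgebra.single 1 (A j v))).coeff g₀ = 0 := by
        rw [MonoidAlgebra.coeff_mul_apply_left, Finsupp.sum]
        refine Finset.sum_eq_zero fun g' hg' => ?_
        have h3 : (c j).coeff g' ≠ 0 := Finsupp.mem_support_iff.1 hg'
        by_contra h4
        have h7 := hF j v _ (right_ne_zero_of_mul h4)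
        have h8 := hmin' j g' h3
        rw [map_mul, map_inv, toAdd_mul, toAdd_inv] at h7
        omega
      rw [h6, add_zero, hdj]
      by_cases h3 : A j v = 0
      · rw [h3, mul_zero, mul_zero]
      · have h4 := hA0 j v h3
        by_cases h9 : (c j).coeff g₀ = 0
        · rw [h9]
          simp
        · have h8 := hmin' j g₀ h9
          rw [if_pos (by omega)]
  have h2 := (linearIndependent_iff.1 hA) d hd
  have h3 : d j₀ = 0 := by rw [h2]; rfl
  rw [hdj, if_pos ⟨rfl, rfl⟩] at h3
  exact hg₀ h3

/-- Rows may be multiplied with group elements. -/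
theorem inj_scale {R V : Type} (F : R → V → MonoidAlgebra ℤ G) (u : R → G)
    (hF : Injective (Finsupp.linearCombination (MonoidAlgebra ℤ G)
      (fun j v => MonoidAlgebra.of ℤ G (u j) * F j v))) :
    Injective (Finsupp.linearCombination (MonoidAlgebra ℤ G) F) := by
  classical
  rw [injective_iff_map_eq_zero] at hF ⊢
  intro c hc
  let c' : R →₀ MonoidAlgebra ℤ G := Finsupp.onFinset c.support
    (fun j => c j * MonoidAlgebra.of ℤ G ((u j)⁻¹)) (by
      intro j hj
      rw [Finsupp.mem_support_iff]
      intro h0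
      rw [h0, zero_mul] at hj
      exact hj rfl)
  have h3 : ∀ j, MonoidAlgebra.of ℤ G ((u j)⁻¹) * MonoidAlgebra.of ℤ G (u j) = 1 := by
    intro j
    rw [← map_mul, inv_mul_cancel, map_one]
  have h1 : Finsupp.linearCombination (MonoidAlgebra ℤ G)
      (fun j v => MonoidAlgebra.of ℤ G (u j) * F j v) c' = 0 := by
    rw [Finsupp.linearCombination_onFinset]
    funext v
    rw [Finset.sum_apply]
    have h2 : ∀ j, ((c j * MonoidAlgebra.of ℤ G ((u j)⁻¹)) •
        (fun v => MonoidAlgebra.of ℤ G (u j) * F j v)) v = c j * F j v := by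
      intro j
      change c j * MonoidAlgebra.of ℤ G ((u j)⁻¹) * (MonoidAlgebra.of ℤ G (u j) * F j v) = _
      rw [mul_assoc, ← mul_assoc (MonoidAlgebra.of ℤ G ((u j)⁻¹)), h3, one_mul]
    rw [Finset.sum_congr rfl fun j _ => h2 j]
    have h4 := congrFun hc v
    rw [Finsupp.linearCombination_apply, Finsupp.sum, Finset.sum_apply] at h4
    exact h4
  have h2 := hF c' h1
  ext1 j
  have h4 : c j * MonoidAlgebra.of ℤ G ((u j)⁻¹) = 0 := DFunLike.congr_fun h2 j
  have h5 : c j * (MonoidAlgebra.of ℤ G ((u j)⁻¹) * MonoidAlgebra.of ℤ G (u j)) = 0 := by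
    rw [← mul_assoc, h4, zero_mul]
  rwa [h3, mul_one] at h5

end trop

/-- The three kinds of rows: the initial vertex leads, the terminal vertex leads, the initial vertex
and the label lead. -/
inductive Ty | I | T | M

/-- the leading part of a row -/
noncomputable def vec {V : Type} (t : Ty) (a l b : V) : V →₀ ℤ :=
  match t with
  | .I => Finsupp.single a 1
  | .T => Finsupp.single b 1
  | .M => Finsupp.single a 1 - Finsupp.single l 1

/-- the condition on the potentials `(p, q)` -/
def Cond {V : Type} (p q : V → ℤ) (t : Ty) (a l b : V) : Prop :=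
  match t with
  | .I => (p a < p l ∨ (p a = p l ∧ q a < q l)) ∧ (p a < p b + 1 ∨ (p a = p b + 1 ∧ q a < q b))
  | .T => (p b + 1 < p a ∨ (p b + 1 = p a ∧ q b < q a)) ∧ (p b + 1 < p l ∨ (p b + 1 = p l ∧ q b < q l))
  | .M => (p a = p l ∧ q a = q l) ∧ (p a < p b + 1 ∨ (p a = p b + 1 ∧ q a < q b))

section crit
variable (K : Cx) (a l b : K.R → K.V) (hr : ∀ j, K.r j = wirt (a j) (l j) (b j))

lemma of_mul_dl_coeff {x : K.Pi} {y v : K.V} {g : K.Pi}
    (h : (MonoidAlgebra.of ℤ K.Pi x * dl K y v).coeff g ≠ 0) : g = x ∧ y = v := by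
  classical
  unfold dl at h
  by_cases h1 : y = v
  · rw [if_pos h1, mul_one, MonoidAlgebra.of_apply, MonoidAlgebra.coeff_single,
      Finsupp.single_apply] at h
    refine ⟨?_, h1⟩
    by_contra h2
    rw [if_neg (Ne.symm h2)] at h
    exact h rfl
  · rw [if_neg h1, mul_zero] at h
    exact absurd rfl h

lemma coeff_three {x y z : MonoidAlgebra ℤ K.Pi} {g : K.Pi} (h : (x + y + z).coeff g ≠ 0) :
    x.coeff g ≠ 0 ∨ y.coeff g ≠ 0 ∨ z.coeff g ≠ 0 := by
  by_contra hne
  push Not at hne
  apply h
  rw [MonoidAlgebra.coeff_add, MonoidAlgebra.coeff_add, Finsupp.add_apply, Finsupp.add_apply,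
    hne.1, hne.2.1, hne.2.2]
  rfl

lemma coeff_neg' {x : MonoidAlgebra ℤ K.Pi} {g : K.Pi} (h : (-x).coeff g ≠ 0) :
    x.coeff g ≠ 0 := by
  intro h1
  apply h
  rw [MonoidAlgebra.coeff_neg, Finsupp.neg_apply, h1, neg_zero]

lemma single_dl (y v : K.V) : (MonoidAlgebra.single 1 ((Finsupp.single y 1 : K.V →₀ ℤ) v) :
    MonoidAlgebra ℤ K.Pi) = dl K y v := by
  classical
  rw [Finsupp.single_apply]
  unfold dl
  split_ifs
  · rfl
  · exact MonoidAlgebra.single_zero _

include hr in
/-- Asphericity by potentials. -/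
theorem asph_pot (p q : K.V → ℤ) (t : K.R → Ty) (hc : ∀ j, Cond p q (t j) (a j) (l j) (b j))
    (hA : LinearIndependent ℤ fun j : K.R => vec (t j) (a j) (l j) (b j)) : Asph K := by
  classical
  set H := ht K a l b hr with hH
  have hof : ∀ v : K.V, H (PresentedGroup.of v) = Multiplicative.ofAdd 1 := ht_of K a l b hr
  -- the rows, multiplied with the inverse of the label, if the terminal vertex leads
  let u : K.R → K.Pi := fun j => match t j with
    | .I => 1
    | .T => (PresentedGroup.of (l j))⁻¹
    | .M => 1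
  -- the signs
  let s : K.R → ℤ := fun j => match t j with
    | .I => 1
    | .T => -1
    | .M => 1
  have hs : ∀ j, s j ≠ 0 := by
    intro j
    simp only [s]
    split <;> norm_num
  refine inj_scale (fun j : K.R => fox K (K.r j)) u ?_
  refine inj_trop H _ (fun j => s j • vec (t j) (a j) (l j) (b j)) p q
    (fun j => match t j with | .I => p (a j) | .T => p (b j) | .M => p (a j))
    (fun j => match t j with | .I => q (a j) | .T => q (b j) | .M => q (a j)) ?_ ?_ ?_
  · intro j v hv
    have h1 : vec (t j) (a j) (l j) (b j) v ≠ 0 := by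
      intro h0
      apply hv
      rw [Finsupp.smul_apply, h0, smul_zero]
    have hcj := hc j
    rcases htj : t j with _ | _ | _ <;> rw [htj] at h1 hcj <;> simp only [vec, Cond] at h1 hcj ⊢
    · rw [Finsupp.single_apply] at h1
      have h2 : a j = v := by
        by_contra h3
        rw [if_neg h3] at h1
        exact h1 rfl
      rw [h2]
      exact ⟨rfl, rfl⟩
    · rw [Finsupp.single_apply] at h1
      have h2 : b j = v := by
        by_contra h3
        rw [if_neg h3] at h1
        exact h1 rfl
      rw [h2]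
      exact ⟨rfl, rfl⟩
    · rw [Finsupp.sub_apply, Finsupp.single_apply, Finsupp.single_apply] at h1
      have h2 : a j = v ∨ l j = v := by
        by_contra h3
        push Not at h3
        rw [if_neg h3.1, if_neg h3.2] at h1
        exact h1 rfl
      rcases h2 with h2 | h2
      · rw [h2]
        exact ⟨rfl, rfl⟩
      · rw [← h2]
        exact ⟨hcj.1.1.symm, hcj.1.2.symm⟩
  · intro j v g hg
    have hcj := hc j
    rw [fox_rel K a l b hr, Finsupp.smul_apply] at hg
    have hone : ∀ y : K.V, dl K y v = MonoidAlgebra.of ℤ K.Pi 1 * dl K y v := by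
      intro y
      rw [map_one, one_mul]
    rcases htj : t j with _ | _ | _ <;> rw [htj] at hcj <;>
      simp only [vec, Cond, s, u, htj] at hcj hg ⊢
    · -- the initial vertex leads
      rw [one_smul, map_one, one_mul, single_dl] at hg
      have e : dl K (a j) v + og K (a j) * dl K (l j) v - og K (l j) * dl K (b j) v - dl K (l j) v -
          dl K (a j) v = og K (a j) * dl K (l j) v + -(og K (l j) * dl K (b j) v) +
            -(MonoidAlgebra.of ℤ K.Pi 1 * dl K (l j) v) := by
        rw [← hone]
        abel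
      rw [e] at hg
      rcases coeff_three K hg with h1 | h1 | h1
      · obtain ⟨rfl, rfl⟩ := of_mul_dl_coeff K h1
        rw [hof, toAdd_ofAdd]
        omega
      · obtain ⟨rfl, rfl⟩ := of_mul_dl_coeff K (coeff_neg' K h1)
        rw [hof, toAdd_ofAdd]
        omega
      · obtain ⟨rfl, rfl⟩ := of_mul_dl_coeff K (coeff_neg' K h1)
        rw [map_one, toAdd_one]
        omega
    · -- the terminal vertex leads
      have e0 : (MonoidAlgebra.single 1 ((-1 : ℤ) • (Finsupp.single (b j) 1 : K.V →₀ ℤ) v) :
          MonoidAlgebra ℤ K.Pi) = -dl K (b j) v := by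
        rw [← single_dl, neg_one_smul, MonoidAlgebra.single_neg]
      rw [e0] at hg
      have e1 : MonoidAlgebra.of ℤ K.Pi (PresentedGroup.of (l j))⁻¹ *
          (dl K (a j) v + og K (a j) * dl K (l j) v - og K (l j) * dl K (b j) v - dl K (l j) v) -
          -dl K (b j) v = MonoidAlgebra.of ℤ K.Pi (PresentedGroup.of (l j))⁻¹ * dl K (a j) v +
            MonoidAlgebra.of ℤ K.Pi ((PresentedGroup.of (l j))⁻¹ * PresentedGroup.of (a j)) *
              dl K (l j) v +
            -(MonoidAlgebra.of ℤ K.Pi (PresentedGroup.of (l j))⁻¹ * dl K (l j) v) := by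
        rw [mul_sub, mul_sub, mul_add, ← mul_assoc, ← mul_assoc, ← map_mul, ← map_mul,
          inv_mul_cancel, map_one, one_mul]
        abel
      rw [e1] at hg
      rcases coeff_three K hg with h1 | h1 | h1
      · obtain ⟨rfl, rfl⟩ := of_mul_dl_coeff K h1
        rw [map_inv, hof, toAdd_inv, toAdd_ofAdd]
        omega
      · obtain ⟨rfl, rfl⟩ := of_mul_dl_coeff K h1
        rw [map_mul, map_inv, hof, hof, inv_mul_cancel, toAdd_one]
        omega
      · obtain ⟨rfl, rfl⟩ := of_mul_dl_coeff K (coeff_neg' K h1)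
        rw [map_inv, hof, toAdd_inv, toAdd_ofAdd]
        omega
    · -- the initial vertex and the label lead
      rw [one_smul, map_one, one_mul, Finsupp.sub_apply, MonoidAlgebra.single_sub, single_dl,
        single_dl] at hg
      have e : dl K (a j) v + og K (a j) * dl K (l j) v - og K (l j) * dl K (b j) v - dl K (l j) v -
          (dl K (a j) v - dl K (l j) v) = og K (a j) * dl K (l j) v +
            -(og K (l j) * dl K (b j) v) + 0 := by
        abel
      rw [e] at hg
      rcases coeff_three K hg with h1 | h1 | h1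
      · obtain ⟨rfl, rfl⟩ := of_mul_dl_coeff K h1
        rw [hof, toAdd_ofAdd]
        omega
      · obtain ⟨rfl, rfl⟩ := of_mul_dl_coeff K (coeff_neg' K h1)
        rw [hof, toAdd_ofAdd]
        omega
      · exact absurd rfl h1
  · -- independence
    rw [linearIndependent_iff'] at hA ⊢
    intro S g hg j hj
    have h1 := hA S (fun j => g j * s j) (by
      rw [← hg]
      refine Finset.sum_congr rfl fun j _ => ?_
      rw [mul_smul]) j hj
    exact (mul_eq_zero.1 h1).resolve_right (hs j)

end crit

section sub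
variable {K' K : Cx} (i : Sub K' K) (a l b : K.R → K.V)
  (hr : ∀ j, K.r j = wirt (a j) (l j) (b j)) (hne : ∀ j, a j ≠ l j ∧ l j ≠ b j ∧ a j ≠ b j)

include i hr hne in
theorem asph_sub_pot (p q : K.V → ℤ) (t : K.R → Ty)
    (hc : ∀ j, Cond p q (t j) (a j) (l j) (b j))
    (hA : LinearIndependent ℤ fun j : K.R => vec (t j) (a j) (l j) (b j)) : Asph K' := by
  obtain ⟨a', l', b', h1, h2⟩ := exists_sub i a l b hr hne
  refine asph_pot K' a' l' b' h1 (p ∘ i.v) (q ∘ i.v) (t ∘ i.c) ?_ ?_
  · intro j
    have h3 := hc (i.c j)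
    obtain ⟨h4, h5, h6⟩ := h2 j
    rcases htj : t (i.c j) with _ | _ | _ <;> rw [htj] at h3 <;>
      simp only [Cond, comp_apply, htj, h4, h5, h6] at h3 ⊢ <;> exact h3
  · have h3 := hA.comp i.c i.c.injective
    refine LinearIndependent.of_comp (Finsupp.lmapDomain ℤ ℤ i.v) ?_
    convert h3 using 1
    · funext j
      obtain ⟨h4, h5, h6⟩ := h2 j
      rcases htj : t (i.c j) with _ | _ | _ <;>
        simp only [comp_apply, vec, htj, map_sub, Finsupp.lmapDomain_apply,
          Finsupp.mapDomain_single, h4, h5, h6]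
    · exact Subsingleton.elim _ _

end sub

end Pool.Agent.Helper78K9.GO2
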